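import Pool.Agent.H84.Dt

namespace Pool.Agent.Results.MP_891d8f_lc.NoPFA

open Pool.Agent.H84.DtDefs

theorem result (pfa : PFA) : ∃ (w : ℕ → ℕ) (t : ℕ → ℕ → Bool),
    (∀ k, IsType (w k) (t k) ∧ DepthLe (w k) (t k) 1) ∧ ∀ C, CSeq C → ¬ Guessing C w t :=
  Pool.Agent.H84.Dt.main pfa

end Pool.Agent.Results.MP_891d8f_lc.NoPFA
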